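import Pool.Agent.K6.H56.GP.Stm

/-! The variational bound of the gap (piece VAR). -/

set_option autoImplicit false

open Finset Matrix

namespace Pool.Agent.K6.H56.GP

open Pool.Agent.H444R3.GapDefs

theorem t_VAR : S_VAR := by
  intro V _ G hdeg f
  classical
  set c : ℝ := gap G with hcdef
  have hc : 0 ≤ c := gap_nonneg G
  set q : V → ℝ := fun v => Real.sqrt ((nbrs G v).card : ℝ) with hqdef
  have hcard : ∀ v, (0 : ℝ) < ((nbrs G v).card : ℝ) := fun v => by exact_mod_cast hdeg v
  have hq : ∀ v, 0 < q v := fun v => Real.sqrt_pos.2 (hcard v)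
  have hqq : ∀ v, q v * q v = ((nbrs G v).card : ℝ) := fun v => Real.mul_self_sqrt (hcard v).le
  set M : Matrix V V ℝ := Matrix.of fun v w => if G.Adj v w then 1 / (q v * q w) else 0 with hMdef
  have hM : ∀ (g : V → ℝ) (v : V), (M *ᵥ g) v = (∑ w ∈ nbrs G v, g w / q w) / q v := by
    intro g v
    rw [Matrix.mulVec, dotProduct]
    unfold nbrs
    rw [Finset.sum_filter, Finset.sum_div]
    apply Finset.sum_congr rfl
    intro w _
    simp only [hMdef, Matrix.of_apply]
    have h1 := (hq v).ne'
    have h2 := (hq w).ne'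
    split_ifs
    · field_simp
    · simp
  have hMT : Mᵀ = M := by
    ext v w
    simp only [hMdef, Matrix.transpose_apply, Matrix.of_apply, G.adj_comm, mul_comm]
  set B : Matrix V V ℝ := M * M - (c ^ 2) • (1 : Matrix V V ℝ) with hBdef
  have hB : B.IsHermitian := by
    rw [Matrix.IsHermitian, Matrix.conjTranspose_eq_transpose_of_trivial, hBdef,
      Matrix.transpose_sub, Matrix.transpose_mul, hMT, Matrix.transpose_smul,
      Matrix.transpose_one]
  have hBq : ∀ g : V → ℝ, star g ⬝ᵥ (B *ᵥ g) =
      ∑ v, ((M *ᵥ g) v) ^ 2 - c ^ 2 * ∑ v, g v ^ 2 := by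
    intro g
    rw [hBdef, Matrix.sub_mulVec, dotProduct_sub, ← Matrix.mulVec_mulVec,
      Matrix.dotProduct_mulVec, Matrix.smul_mulVec, Matrix.one_mulVec]
    have e1 : (star g ᵥ* M) = M *ᵥ g := by
      rw [← Matrix.mulVec_transpose, hMT]
      rfl
    rw [e1]
    have e2 : (M *ᵥ g) ⬝ᵥ (M *ᵥ g) = ∑ v, ((M *ᵥ g) v) ^ 2 := by
      rw [dotProduct]
      apply Finset.sum_congr rfl
      intro v _
      ring
    rw [e2, dotProduct_smul]
    congr 1
    rw [smul_eq_mul]
    congr 1
    rw [dotProduct]
    apply Finset.sum_congr rfl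
    intro v _
    simp only [Pi.star_apply, star_trivial]
    ring
  -- from an eigenvector of `M` with eigenvalue `θ`
  have key : ∀ (θ : ℝ) (e : V → ℝ), e ≠ 0 → M *ᵥ e = θ • e → c ≤ |θ| := by
    intro θ e he heM
    have he' : (fun v => e v / q v) ≠ 0 := by
      intro h0
      apply he
      ext v
      have h1 := congrFun h0 v
      simp only [Pi.zero_apply] at h1 ⊢
      rcases div_eq_zero_iff.1 h1 with h2 | h2
      · exact h2
      · exact absurd h2 (hq v).ne'
    have h1 : ∀ v, lap G (fun v => e v / q v) v = (1 - θ) * (fun v => e v / q v) v := by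
      intro v
      have h2 := congrFun heM v
      rw [hM] at h2
      simp only [Pi.smul_apply, smul_eq_mul] at h2
      unfold lap
      have h3 := (hq v).ne'
      rw [div_eq_iff h3] at h2
      rw [h2, ← hqq v]
      field_simp
    have h2 := gap_le_of_eig G he' h1
    rwa [show (1 - θ : ℝ) - 1 = -θ by ring, abs_neg] at h2
  have hall : ∀ i, 0 ≤ hB.eigenvalues i := by
    intro i
    by_contra hi
    push Not at hi
    set g : V → ℝ := (hB.eigenvectorBasis i).ofLp with hg
    have hgB : B *ᵥ g = hB.eigenvalues i • g := by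
      have := hB.mulVec_eigenvectorBasis i
      exact this
    have hg0 : g ≠ 0 := by
      intro h0
      have h1 : hB.eigenvectorBasis i = 0 := by
        ext v
        exact congrFun h0 v
      have h2 := hB.eigenvectorBasis.orthonormal.1 i
      rw [h1] at h2
      simp at h2
    set t : ℝ := c ^ 2 + hB.eigenvalues i with ht
    have hgM : M *ᵥ (M *ᵥ g) = t • g := by
      have e1 : M *ᵥ (M *ᵥ g) = B *ᵥ g + c ^ 2 • g := by
        rw [hBdef, Matrix.sub_mulVec, Matrix.smul_mulVec, Matrix.one_mulVec,
          Matrix.mulVec_mulVec]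
        simp
      rw [e1, hgB, ht, add_smul, add_comm]
    have hgpos : 0 < ∑ v, g v ^ 2 := by
      obtain ⟨v, hv⟩ := Function.ne_iff.1 hg0
      apply Finset.sum_pos' (fun v _ => sq_nonneg _)
      exact ⟨v, Finset.mem_univ _, by simpa using pow_pos (abs_pos.2 hv) 2⟩
    have ht0 : 0 ≤ t := by
      have e1 : ∑ v, ((M *ᵥ g) v) ^ 2 = t * ∑ v, g v ^ 2 := by
        have h1 := hBq g
        rw [hgB, dotProduct_smul, smul_eq_mul] at h1
        have h2 : star g ⬝ᵥ g = ∑ v, g v ^ 2 := by
          rw [dotProduct]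
          apply Finset.sum_congr rfl
          intro v _
          simp only [Pi.star_apply, star_trivial]
          ring
        rw [h2] at h1
        rw [ht]
        linarith
      have e2 : 0 ≤ ∑ v, ((M *ᵥ g) v) ^ 2 := Finset.sum_nonneg (fun _ _ => sq_nonneg _)
      rw [e1] at e2
      by_contra hneg
      push Not at hneg
      nlinarith
    have htc : Real.sqrt t < c := by
      have h0 : 0 < c := by
        rcases hc.lt_or_eq with h | h
        · exact h
        · exfalso
          rw [← h] at ht
          nlinarith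
      rw [Real.sqrt_lt' h0]
      rw [ht]; linarith
    set s := Real.sqrt t with hs
    have hs0 : 0 ≤ s := Real.sqrt_nonneg _
    have hss : s * s = t := Real.mul_self_sqrt ht0
    by_cases hh : M *ᵥ g + s • g = 0
    · have h5 := key (-s) g hg0 (by
        rw [neg_smul]
        exact eq_neg_of_add_eq_zero_left hh)
      rw [abs_neg, abs_of_nonneg hs0] at h5
      linarith
    · have h5 := key s _ hh (by
        rw [Matrix.mulVec_add, hgM, Matrix.mulVec_smul, smul_add, smul_smul, hss, add_comm])
      rw [abs_of_nonneg hs0] at h5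
      linarith
  have hps := hB.posSemidef_iff_eigenvalues_nonneg.2 hall
  have h6 := hps.dotProduct_mulVec_nonneg (fun v => q v * f v)
  rw [hBq] at h6
  have e1 : ∑ v, ((M *ᵥ fun v => q v * f v) v) ^ 2 =
      ∑ v, (∑ w ∈ nbrs G v, f w) ^ 2 / ((nbrs G v).card : ℝ) := by
    apply Finset.sum_congr rfl
    intro v _
    rw [hM, div_pow]
    congr 1
    · congr 1
      apply Finset.sum_congr rfl
      intro w _
      have := (hq w).ne'
      field_simp
    · rw [← hqq v]; ring
  have e2 : ∑ v, (fun v => q v * f v) v ^ 2 = ∑ v, ((nbrs G v).card : ℝ) * f v ^ 2 := by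
    apply Finset.sum_congr rfl
    intro v _
    show (q v * f v) ^ 2 = _
    rw [← hqq v]; ring
  rw [e1, e2] at h6
  linarith

end Pool.Agent.K6.H56.GP
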