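import Pool.Agent.K6.H56.GP.FIN
import Pool.Agent.K6.H56.GP.VAR
import Pool.Agent.H469R10.HO.Stmts

/-! The asymptotic value in the family of graphs of minimum degree at least `d`. -/

set_option autoImplicit false

open Finset

namespace Pool.Agent.K6.H56.GP

open Pool.Agent.H444R3.GapDefs

namespace ASY

/-- the known upper bound, from the same test vectors -/
theorem upper_all (d : ℕ) (hd : 4 ≤ d) : sSup (gapsMin d) ≤ Real.sqrt ((d : ℝ) - 1) / d := by
  have hD : (4 : ℝ) ≤ d := by exact_mod_cast hd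
  apply csSup_le
  · obtain ⟨p, hp1, hp2⟩ := Nat.exists_infinite_primes d
    exact ⟨_, gap_prime_pow p hp2.isPrimePow d (by omega)⟩
  · rintro r ⟨V, hV, G, hG, rfl⟩
    by_cases hreg : ∀ v, (nbrs G v).card = d
    · obtain ⟨hc, h3, hdeg⟩ := hG
      haveI : Nonempty V := Fintype.card_pos_iff.1 (by omega)
      obtain ⟨x0⟩ := ‹Nonempty V›
      obtain ⟨u, hu, v, hv, huv⟩ := Finset.one_lt_card.1
        (show 1 < (nbrs G x0).card by rw [hreg]; omega)
      rw [E.mem_nb] at hu hv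
      have h5 := E.reg_up t_VAR G d hd hreg huv hu.symm hv.symm
      rw [le_div_iff₀ (by positivity)]
      apply Real.le_sqrt_of_sq_le
      rw [mul_pow]
      linarith
    · refine (FIN.upper_gap t_VAR d hd G hG (Or.inr hreg)).trans ?_
      apply div_le_div_of_nonneg_right _ (by positivity)
      apply Real.sqrt_le_sqrt
      have : 0 < 1 / (3 * ((d : ℝ) + 1)) := by positivity
      linarith

theorem lower_q (d q : ℕ) (hd : 4 ≤ d) (hq : q.Prime) (hdq : d ≤ q) :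
    (d : ℝ) / (q + 1) / Real.sqrt d ≤ sSup (gapsMin d) := by
  have h := le_csSup (bdd_gapsMin d (by omega)) (gap_prime_pow q hq.isPrimePow d (by omega))
  refine le_trans ?_ h
  have hD : (4 : ℝ) ≤ d := by exact_mod_cast hd
  have hs : Real.sqrt d * Real.sqrt d = d := Real.mul_self_sqrt (by positivity)
  have hs0 : 0 < Real.sqrt d := Real.sqrt_pos.2 (by linarith)
  have e : (d : ℝ) / (q + 1) / Real.sqrt d = Real.sqrt d / (q + 1) := by
    rw [div_div, div_eq_div_iff (by positivity) (by positivity)]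
    nlinarith
  rw [e]
  apply div_le_div_of_nonneg_right _ (by positivity)
  apply Real.sqrt_le_sqrt
  exact_mod_cast hdq

theorem sSup_nonneg' (d : ℕ) (hd : 4 ≤ d) : 0 ≤ sSup (gapsMin d) := by
  obtain ⟨p, hp1, hp2⟩ := Nat.exists_infinite_primes d
  refine le_trans ?_ (lower_q d p hd hp2 hp1)
  positivity

/-- `(1 - C d^(-δ)) / √d ≤ gap(G_{≥ d}) ≤ √(d - 1) / d` for all `d ≥ 4` -/
theorem asym (hH : Pool.Agent.H469R10.HO.Hoheisel) : ∃ δ C : ℝ, 0 < δ ∧ ∀ d : ℕ, 4 ≤ d →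
    (1 - C * (d : ℝ) ^ (-δ)) / Real.sqrt d ≤ sSup (gapsMin d) ∧
    sSup (gapsMin d) ≤ Real.sqrt ((d : ℝ) - 1) / d := by
  obtain ⟨δ, η, hδ, hδ1, hη, X₀, hX, h⟩ := hH
  refine ⟨δ, 3 + (X₀ : ℝ) ^ δ, hδ, fun d hd => ⟨?_, upper_all d hd⟩⟩
  have hD : (4 : ℝ) ≤ d := by exact_mod_cast hd
  have hdp : (0 : ℝ) < d := by linarith
  have hs0 : 0 < Real.sqrt d := Real.sqrt_pos.2 hdp
  have hpw : 0 < (d : ℝ) ^ (-δ) := Real.rpow_pos_of_pos hdp _
  have hX0 : 0 ≤ (X₀ : ℝ) ^ δ := Real.rpow_nonneg (by positivity) _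
  rcases Nat.lt_or_ge d X₀ with hlt | hge
  · refine le_trans ?_ (sSup_nonneg' d hd)
    apply div_nonpos_of_nonpos_of_nonneg _ hs0.le
    have h1 : (d : ℝ) ^ δ ≤ (X₀ : ℝ) ^ δ := by
      apply Real.rpow_le_rpow hdp.le _ hδ.le
      exact_mod_cast hlt.le
    have h2 : (d : ℝ) ^ δ * (d : ℝ) ^ (-δ) = 1 := by
      rw [← Real.rpow_add hdp]; simp
    nlinarith
  · set Y : ℕ := ⌈(d : ℝ) ^ (1 - δ)⌉₊ with hY
    have hp1 : (d : ℝ) ^ (1 - δ) ≤ d := by
      calc (d : ℝ) ^ (1 - δ) ≤ (d : ℝ) ^ (1 : ℝ) :=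
            Real.rpow_le_rpow_of_exponent_le (by linarith) (by linarith)
        _ = d := Real.rpow_one _
    have hYd : Y ≤ d := Nat.ceil_le.2 hp1
    have hp0 : 0 < (d : ℝ) ^ (1 - δ) := Real.rpow_pos_of_pos hdp _
    have hY1 : 0 < Y := Nat.ceil_pos.2 hp0
    have h1 := h d Y hge (Nat.le_ceil _) hYd
    have h2 : 0 < η * Y / Real.log d := by
      have : 0 < Real.log d := Real.log_pos (by linarith)
      have : (0 : ℝ) < Y := by exact_mod_cast hY1
      positivity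
    have h3 : (0 : ℝ) < (((Ioc d (d + Y)).filter Nat.Prime).card : ℝ) := lt_of_lt_of_le h2 h1
    have h4 : 0 < ((Ioc d (d + Y)).filter Nat.Prime).card := by exact_mod_cast h3
    obtain ⟨q, hq⟩ := Finset.card_pos.1 h4
    rw [Finset.mem_filter, Finset.mem_Ioc] at hq
    refine le_trans ?_ (lower_q d q hd hq.2 hq.1.1.le)
    apply div_le_div_of_nonneg_right _ hs0.le
    have hY2 : (Y : ℝ) < (d : ℝ) ^ (1 - δ) + 1 := Nat.ceil_lt_add_one hp0.le
    have hq2 : (q : ℝ) ≤ d + Y := by exact_mod_cast hq.1.2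
    have hmul : (d : ℝ) ^ (1 - δ) = d * (d : ℝ) ^ (-δ) := by
      rw [show (1 : ℝ) - δ = 1 + -δ by ring, Real.rpow_add hdp, Real.rpow_one]
    have hinv : 1 ≤ (d : ℝ) * (d : ℝ) ^ (-δ) := by
      rw [← hmul]
      exact Real.one_le_rpow (by linarith) (by linarith)
    have hqp : (0 : ℝ) < q + 1 := by positivity
    rw [le_div_iff₀ hqp]
    set t : ℝ := (d : ℝ) ^ (-δ) with ht
    have hq3 : (q : ℝ) + 1 ≤ d * (1 + 3 * t) := by
      rw [hmul] at hY2
      nlinarith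
    have hq4 : (d : ℝ) ≤ q := by exact_mod_cast hq.1.1.le
    by_cases hneg : 1 - (3 + (X₀ : ℝ) ^ δ) * t ≤ 0
    · have : (1 - (3 + (X₀ : ℝ) ^ δ) * t) * (q + 1) ≤ 0 :=
        mul_nonpos_of_nonpos_of_nonneg hneg hqp.le
      linarith
    · push Not at hneg
      have h5 : 1 - (3 + (X₀ : ℝ) ^ δ) * t ≤ 1 - 3 * t := by nlinarith
      have h6 : (1 - (3 + (X₀ : ℝ) ^ δ) * t) * (q + 1) ≤ (1 - 3 * t) * (q + 1) :=
        mul_le_mul_of_nonneg_right h5 hqp.le
      have h7 : 0 < 1 - 3 * t := lt_of_lt_of_le hneg h5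
      have h8 : (1 - 3 * t) * (q + 1) ≤ (1 - 3 * t) * (d * (1 + 3 * t)) :=
        mul_le_mul_of_nonneg_left hq3 h7.le
      nlinarith [sq_nonneg t, mul_pos hpw hpw]

end ASY

end Pool.Agent.K6.H56.GP
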