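import Pool.Agent.K6.H56.GP.Stm2
import Pool.Agent.H444R3.GapConf

/-! A special case of the Bruck-Ryser theorem (piece BR). -/

set_option autoImplicit false

open Finset Configuration

namespace Pool.Agent.K6.H56.GP

namespace BR

open Pool.Agent.H444R3.GapDefs Pool.Agent.H177R2.SD

/-- a plane in the sense of `IsPlane` is a projective plane of Mathlib -/
theorem planeRel {P L : Type} [Fintype P] [Fintype L] {R : P → L → Prop} {n : ℕ}
    (h : IsPlane R n) :
    IsPlaneRel R n ∧ Fintype.card P = n ^ 2 + n + 1 ∧ Fintype.card L = n ^ 2 + n + 1 := by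
  classical
  letI : Membership P L := ⟨fun l p => R p l⟩
  obtain ⟨a, ha, hq⟩ := h.quad
  have huniq : ∀ {p q : P} {l m : L}, R p l → R q l → R p m → R q m → p = q ∨ l = m := by
    intro p q l m h1 h2 h3 h4
    by_cases hpq : p = q
    · exact Or.inl hpq
    · right
      obtain ⟨l', -, hu⟩ := h.line p q hpq
      rw [hu l ⟨h1, h2⟩, hu m ⟨h3, h4⟩]
  have hne : ∀ i j : Fin 4, i ≠ j → a i ≠ a j := fun i j hij h' => hij (ha h')
  obtain ⟨l01, h010, h011⟩ := (h.line (a 0) (a 1) (hne 0 1 (by decide))).exists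
  obtain ⟨l02, h020, h022⟩ := (h.line (a 0) (a 2) (hne 0 2 (by decide))).exists
  obtain ⟨l12, h121, h122⟩ := (h.line (a 1) (a 2) (hne 1 2 (by decide))).exists
  obtain ⟨l23, h232, h233⟩ := (h.line (a 2) (a 3) (hne 2 3 (by decide))).exists
  have hN : Nondegenerate P L := by
    refine ⟨?_, ?_, ?_⟩
    · intro l
      by_contra hcon
      push Not at hcon
      exact hq 0 1 2 (by decide) (by decide) (by decide) ⟨l, hcon _, hcon _, hcon _⟩
    · intro p
      by_contra hcon
      push Not at hcon
      have hc : ∀ l : L, R p l := hcon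
      rcases huniq (hc l01) h010 (hc l02) h020 with h1 | h1
      · refine hq 0 1 2 (by decide) (by decide) (by decide) ⟨l12, ?_, h121, h122⟩
        rw [← h1]
        exact hc l12
      · refine hq 0 1 2 (by decide) (by decide) (by decide) ⟨l01, h010, h011, ?_⟩
        rw [h1]
        exact h022
    · intro p q l m h1 h2 h3 h4
      exact huniq h1 h2 h3 h4
  letI hPP : ProjectivePlane P L :=
    { hN with
      mkPoint := fun {l m} hlm => (h.point l m hlm).choose
      mkPoint_ax := fun {l m} hlm => (h.point l m hlm).choose_spec.1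
      mkLine := fun {p q} hpq => (h.line p q hpq).choose
      mkLine_ax := fun {p q} hpq => (h.line p q hpq).choose_spec.1
      exists_config := by
        refine ⟨a 3, a 0, a 1, l23, l01, l02, ?_, ?_, ?_, h010, h020, ?_, h011, ?_⟩
        · intro h3
          exact hq 0 1 3 (by decide) (by decide) (by decide) ⟨l01, h010, h011, h3⟩
        · intro h3
          exact hq 0 2 3 (by decide) (by decide) (by decide) ⟨l02, h020, h022, h3⟩
        · intro h3
          exact hq 0 2 3 (by decide) (by decide) (by decide) ⟨l23, h3, h232, h233⟩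
        · intro h3
          exact hq 1 2 3 (by decide) (by decide) (by decide) ⟨l23, h3, h232, h233⟩
        · intro h3
          exact hq 0 1 2 (by decide) (by decide) (by decide) ⟨l02, h020, h3, h022⟩ }
  have hord : ProjectivePlane.order P L = n := by
    obtain ⟨l, hl⟩ := h.order
    have h1 := ProjectivePlane.pointCount_eq P l
    have h2 : Nat.card {p // R p l} = ProjectivePlane.order P L + 1 := h1
    omega
  refine ⟨?_, ?_, ?_⟩
  · have h1 := planeRel_of_plane P L
    rw [hord] at h1
    exact h1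
  · have h1 := ProjectivePlane.card_points P L
    rw [hord] at h1
    exact h1
  · have h1 := ProjectivePlane.card_lines P L
    rw [hord] at h1
    exact h1

end BR

open Pool.Agent.H444R3.GapDefs Pool.Agent.H177R2.SD in
theorem t_BR : S_BR := by
  intro n p hn hp hp4 hpn hp2 hex
  obtain ⟨P, L, _, _, R, h⟩ := hex
  obtain ⟨hR, hP, hL⟩ := BR.planeRel h
  have hn2 : 2 ≤ n := by omega
  have hsym : IsSymmetricDesign (n ^ 2 + n + 1) (n + 1) 1 :=
    symm_of_rel R hP hL (by nlinarith) hR.right hR.left hR.line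
  obtain ⟨-, hsq⟩ := brc_local hsym (by omega) (by nlinarith) hp (by rintro rfl; omega)
    (by simpa using hpn) (by simpa using hp2) (by
      intro h'
      exact hp.one_lt.ne' (Nat.dvd_one.1 h'))
  obtain ⟨m, hm, hm2⟩ : ∃ m, n = 2 * m ∧ m % 2 = 1 := ⟨n / 2, by omega, by omega⟩
  have e : (n ^ 2 + n + 1 - 1) / 2 = m * (2 * m + 1) := by
    have : n ^ 2 + n + 1 - 1 = 2 * (m * (2 * m + 1)) := by
      rw [Nat.add_sub_cancel, hm]; ring
    rw [this]
    omega
  rw [e] at hsq
  have hodd : Odd (m * (2 * m + 1)) := by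
    rw [Nat.odd_mul]
    exact ⟨Nat.odd_iff.2 hm2, ⟨m, rfl⟩⟩
  rw [hodd.neg_one_pow] at hsq
  haveI : Fact p.Prime := ⟨hp⟩
  have h7 : IsSquare (-1 : ZMod p) := by
    simpa using hsq
  rw [ZMod.exists_sq_eq_neg_one_iff] at h7
  exact h7 hp4

end Pool.Agent.K6.H56.GP
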