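import Pool.Agent.K6.H56.GP.ML

/-! Test vectors supported on at most three vertices. -/

set_option autoImplicit false

open Finset

namespace Pool.Agent.K6.H56.GP

open Pool.Agent.H444R3.GapDefs

namespace E

variable {V : Type} [Fintype V]

lemma mem_nb {G : SimpleGraph V} {v w : V} : w ∈ nbrs G v ↔ G.Adj v w := by
  unfold nbrs
  simp

lemma mem_cm {G : SimpleGraph V} {u v w : V} : w ∈ common G u v ↔ G.Adj u w ∧ G.Adj v w := by
  unfold common
  simp

lemma sq3 (D p q r : V → ℝ) (α β γ : ℝ) :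
    ∑ v, D v * (α * p v + β * q v + γ * r v) ^ 2 =
      α ^ 2 * ∑ v, D v * (p v * p v) + β ^ 2 * ∑ v, D v * (q v * q v) +
      γ ^ 2 * ∑ v, D v * (r v * r v) + 2 * α * β * ∑ v, D v * (p v * q v) +
      2 * α * γ * ∑ v, D v * (p v * r v) + 2 * β * γ * ∑ v, D v * (q v * r v) := by
  simp only [Finset.mul_sum, ← Finset.sum_add_distrib]
  apply Finset.sum_congr rfl
  intro v _
  ring

open Classical in
/-- indicator of a vertex -/
noncomputable def ii (a v : V) : ℝ := if v = a then 1 else 0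

open Classical in
/-- indicator of adjacency -/
noncomputable def jj (G : SimpleGraph V) (a v : V) : ℝ := if G.Adj v a then 1 else 0

open Classical in
lemma sum_ii (D : V → ℝ) (a b : V) :
    ∑ v, D v * (ii a v * ii b v) = if a = b then D a else 0 := by
  unfold ii
  have : ∀ v ∈ (Finset.univ : Finset V), D v * ((if v = a then (1 : ℝ) else 0) *
      (if v = b then (1 : ℝ) else 0)) = if v = a then (if a = b then D a else 0) else 0 := by
    intro v _
    by_cases h : v = a
    · subst h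
      simp
    · simp [h]
  rw [Finset.sum_congr rfl this, Finset.sum_ite_eq' Finset.univ a]
  simp

lemma sum_nb_ii (G : SimpleGraph V) (a v : V) : ∑ w ∈ nbrs G v, ii a w = jj G a v := by
  classical
  unfold ii jj
  rw [Finset.sum_ite_eq' (nbrs G v) a]
  simp only [mem_nb]

/-- `∑_{x ∈ common a b} 1 / d_x` -/
noncomputable def KK (G : SimpleGraph V) (a b : V) : ℝ :=
  ∑ x ∈ common G a b, 1 / ML.dd G x

lemma sum_jj (G : SimpleGraph V) (a b : V) :
    ∑ v, (1 / ML.dd G v) * (jj G a v * jj G b v) = KK G a b := by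
  classical
  unfold KK common jj
  rw [Finset.sum_filter]
  apply Finset.sum_congr rfl
  intro v _
  rw [G.adj_comm v a, G.adj_comm v b]
  by_cases h1 : G.Adj a v <;> by_cases h2 : G.Adj b v <;> simp [h1, h2]

open Classical in
theorem form3 (hVAR : S_VAR) (G : SimpleGraph V) (hpos : ∀ v, 0 < (nbrs G v).card) (a b c : V)
    (α β γ : ℝ) :
    gap G ^ 2 * (α ^ 2 * ML.dd G a + β ^ 2 * ML.dd G b + γ ^ 2 * ML.dd G c +
      2 * α * β * (if a = b then ML.dd G a else 0) + 2 * α * γ * (if a = c then ML.dd G a else 0) +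
      2 * β * γ * (if b = c then ML.dd G b else 0)) ≤
    α ^ 2 * KK G a a + β ^ 2 * KK G b b + γ ^ 2 * KK G c c + 2 * α * β * KK G a b +
      2 * α * γ * KK G a c + 2 * β * γ * KK G b c := by
  have h := hVAR V G hpos (fun v => α * ii a v + β * ii b v + γ * ii c v)
  have e1 : ∑ v, ((nbrs G v).card : ℝ) * (α * ii a v + β * ii b v + γ * ii c v) ^ 2 =
      α ^ 2 * ML.dd G a + β ^ 2 * ML.dd G b + γ ^ 2 * ML.dd G c +
      2 * α * β * (if a = b then ML.dd G a else 0) + 2 * α * γ * (if a = c then ML.dd G a else 0) +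
      2 * β * γ * (if b = c then ML.dd G b else 0) := by
    rw [sq3]
    simp only [sum_ii]
    simp only [if_true, ML.dd]
  have e2 : ∑ v, (∑ w ∈ nbrs G v, (α * ii a w + β * ii b w + γ * ii c w)) ^ 2 /
      ((nbrs G v).card : ℝ) =
      α ^ 2 * KK G a a + β ^ 2 * KK G b b + γ ^ 2 * KK G c c + 2 * α * β * KK G a b +
      2 * α * γ * KK G a c + 2 * β * γ * KK G b c := by
    rw [← sum_jj, ← sum_jj, ← sum_jj, ← sum_jj, ← sum_jj, ← sum_jj, ← sq3]
    apply Finset.sum_congr rfl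
    intro v _
    have : ∑ w ∈ nbrs G v, (α * ii a w + β * ii b w + γ * ii c w) =
        α * jj G a v + β * jj G b v + γ * jj G c v := by
      rw [Finset.sum_add_distrib, Finset.sum_add_distrib, ← Finset.mul_sum, ← Finset.mul_sum,
        ← Finset.mul_sum, sum_nb_ii, sum_nb_ii, sum_nb_ii]
    rw [this]
    unfold ML.dd
    ring
  rw [e1, e2] at h
  exact h

/-- `S_u - g² d_u` -/
noncomputable def ev (G : SimpleGraph V) (u : V) : ℝ := KK G u u - gap G ^ 2 * ML.dd G u

lemma ev_nonneg (hVAR : S_VAR) (G : SimpleGraph V) (hpos : ∀ v, 0 < (nbrs G v).card) (a : V) :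
    0 ≤ ev G a := by
  have := form3 hVAR G hpos a a a 1 0 0
  unfold ev
  simp at this
  linarith

lemma quad2 {e1 e2 k : ℝ} (h : ∀ x : ℝ, 0 ≤ e1 * (x * x) + (2 * k) * x + e2) : k ^ 2 ≤ e1 * e2 := by
  have := discrim_le_zero h
  unfold discrim at this
  nlinarith

lemma cross (hVAR : S_VAR) (G : SimpleGraph V) (hpos : ∀ v, 0 < (nbrs G v).card) {a b : V}
    (hab : a ≠ b) : KK G a b ^ 2 ≤ ev G a * ev G b := by
  apply quad2
  intro x
  have := form3 hVAR G hpos a b b x 1 0
  rw [if_neg hab] at this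
  unfold ev
  simp at this
  nlinarith

lemma dd_pos {G : SimpleGraph V} (hpos : ∀ v, 0 < (nbrs G v).card) (v : V) : 0 < ML.dd G v := by
  unfold ML.dd
  exact_mod_cast hpos v

lemma KK_nonneg {G : SimpleGraph V} (hpos : ∀ v, 0 < (nbrs G v).card) (a b : V) :
    0 ≤ KK G a b := by
  unfold KK
  exact Finset.sum_nonneg fun x _ => by have := dd_pos hpos x; positivity

lemma KK_ge {G : SimpleGraph V} (hpos : ∀ v, 0 < (nbrs G v).card) {a b y : V} (ha : G.Adj a y)
    (hb : G.Adj b y) : 1 / ML.dd G y ≤ KK G a b := by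
  unfold KK
  exact Finset.single_le_sum (f := fun x => 1 / ML.dd G x)
    (fun x _ => by have := dd_pos hpos x; positivity) (mem_cm.2 ⟨ha, hb⟩)

lemma common_self (G : SimpleGraph V) (u : V) : common G u u = nbrs G u := by
  classical
  unfold common nbrs
  ext x
  simp

lemma ee_eq (G : SimpleGraph V) (m : ℕ) (u : V) :
    ML.ee G m (gap G ^ 2) u = (m : ℝ) ^ 2 * ev G u := by
  unfold ML.ee ev KK ML.cc
  rw [common_self, Finset.sum_sub_distrib, Finset.sum_const, nsmul_eq_mul, mul_sub,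
    Finset.mul_sum]
  unfold ML.dd
  congr 1
  · apply Finset.sum_congr rfl
    intro x _
    ring
  · ring

lemma H1 (hVAR : S_VAR) (G : SimpleGraph V) (hpos : ∀ v, 0 < (nbrs G v).card) (m : ℕ) (u : V) :
    0 ≤ ML.ee G m (gap G ^ 2) u := by
  rw [ee_eq]
  have := ev_nonneg hVAR G hpos u
  positivity

lemma H2 (hVAR : S_VAR) (G : SimpleGraph V) (hpos : ∀ v, 0 < (nbrs G v).card) (m : ℕ)
    (u v y : V) (huv : u ≠ v) (h1 : G.Adj u y) (h2 : G.Adj v y) :
    (m : ℝ) ^ 4 / ML.dd G y ^ 2 ≤ ML.ee G m (gap G ^ 2) u * ML.ee G m (gap G ^ 2) v := by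
  rw [ee_eq, ee_eq]
  have h3 := cross hVAR G hpos huv
  have h4 := KK_ge hpos h1 h2
  have h5 : 0 < 1 / ML.dd G y := by have := dd_pos hpos y; positivity
  have h6 : (1 / ML.dd G y) ^ 2 ≤ KK G u v ^ 2 := pow_le_pow_left₀ h5.le h4 2
  have h7 : (m : ℝ) ^ 4 / ML.dd G y ^ 2 = (m : ℝ) ^ 4 * (1 / ML.dd G y) ^ 2 := by
    rw [one_div, inv_pow]; rfl
  rw [h7]
  calc (m : ℝ) ^ 4 * (1 / ML.dd G y) ^ 2 ≤ (m : ℝ) ^ 4 * (ev G u * ev G v) := by
        apply mul_le_mul_of_nonneg_left (h6.trans h3); positivity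
    _ = _ := by ring

/-! The regular case -/

section reg

variable (hVAR : S_VAR) (G : SimpleGraph V) (m : ℕ) (hm : 4 ≤ m) (hreg : ∀ v, (nbrs G v).card = m)

include hm hreg in
lemma KK_reg (a b : V) : KK G a b = ((common G a b).card : ℝ) / m := by
  unfold KK ML.dd
  simp only [hreg]
  rw [Finset.sum_const, nsmul_eq_mul]
  ring

include hm hreg in
lemma ev_reg (a : V) : ev G a = 1 - gap G ^ 2 * m := by
  unfold ev
  rw [KK_reg G m hm hreg, common_self, hreg]
  unfold ML.dd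
  rw [hreg]
  have : (m : ℝ) ≠ 0 := by
    have : 0 < m := by omega
    exact_mod_cast this.ne'
  rw [div_self this]

include hVAR hm hreg in
/-- `g² ≤ (m-1)/m²` as soon as two vertices have a common neighbour -/
lemma reg_up {u v y : V} (huv : u ≠ v) (h1 : G.Adj u y) (h2 : G.Adj v y) :
    (m : ℝ) ^ 2 * gap G ^ 2 ≤ m - 1 := by
  have hpos : ∀ v, 0 < (nbrs G v).card := fun v => by rw [hreg]; omega
  have h3 := cross hVAR G hpos huv
  have h4 := KK_ge hpos h1 h2
  have h0 := ev_nonneg hVAR G hpos u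
  have hM : (4 : ℝ) ≤ m := by exact_mod_cast hm
  have hdy : ML.dd G y = m := by unfold ML.dd; rw [hreg]
  rw [hdy] at h4
  have h5 : (0 : ℝ) < 1 / m := by positivity
  rw [ev_reg G m hm hreg, ev_reg G m hm hreg] at h3
  rw [ev_reg G m hm hreg] at h0
  have h6 : (1 / (m : ℝ)) ≤ 1 - gap G ^ 2 * m := by
    by_contra hlt
    push Not at hlt
    nlinarith
  rw [div_le_iff₀ (by linarith)] at h6
  nlinarith

variable (hk : (m : ℝ) - (m : ℝ) ^ 2 * gap G ^ 2 < 1 + 1 / (3 * ((m : ℝ) + 1)))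

include hm hreg hk in
lemma e_small (a : V) : (m : ℝ) * ev G a < 16 / 15 := by
  have hM : (4 : ℝ) ≤ m := by exact_mod_cast hm
  rw [ev_reg G m hm hreg]
  have : 1 / (3 * ((m : ℝ) + 1)) ≤ 1 / 15 := by
    apply one_div_le_one_div_of_le (by norm_num)
    linarith
  nlinarith

include hVAR hm hreg hk in
lemma reg_one (u v : V) (huv : u ≠ v) : (common G u v).card ≤ 1 := by
  by_contra hlt
  push Not at hlt
  have hM : (4 : ℝ) ≤ m := by exact_mod_cast hm
  have hpos : ∀ v, 0 < (nbrs G v).card := fun v => by rw [hreg]; omega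
  have h3 := cross hVAR G hpos huv
  have h0 := ev_nonneg hVAR G hpos u
  have h1 := e_small G m hm hreg hk u
  have h2 : ev G u = ev G v := by rw [ev_reg G m hm hreg, ev_reg G m hm hreg]
  rw [← h2, KK_reg G m hm hreg] at h3
  have h4 : (2 : ℝ) ≤ (common G u v).card := by exact_mod_cast hlt
  rw [div_pow, div_le_iff₀ (by positivity)] at h3
  have h5 : ((common G u v).card : ℝ) ^ 2 ≤ ((m : ℝ) * ev G u) ^ 2 := by
    calc _ ≤ ev G u * ev G u * (m : ℝ) ^ 2 := h3
      _ = _ := by ring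
  have h6 : (0 : ℝ) ≤ (m : ℝ) * ev G u := by positivity
  nlinarith

include hVAR hm hreg hk in
lemma reg_trans (u v w : V) (huv : u ≠ v) (hvw : v ≠ w) (huw : u ≠ w)
    (h1 : (common G u v).Nonempty) (h2 : (common G v w).Nonempty) : (common G u w).Nonempty := by
  by_contra hcon
  rw [Finset.not_nonempty_iff_eq_empty] at hcon
  have hM : (4 : ℝ) ≤ m := by exact_mod_cast hm
  have hpos : ∀ v, 0 < (nbrs G v).card := fun v => by rw [hreg]; omega
  have h0 := ev_nonneg hVAR G hpos v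
  have hs := e_small G m hm hreg hk v
  have e1 : ev G u = ev G v := by rw [ev_reg G m hm hreg, ev_reg G m hm hreg]
  have e2 : ev G w = ev G v := by rw [ev_reg G m hm hreg, ev_reg G m hm hreg]
  have k0 : KK G u w = 0 := by unfold KK; rw [hcon]; simp
  obtain ⟨y, hy⟩ := h1
  obtain ⟨z, hz⟩ := h2
  rw [mem_cm] at hy hz
  have hdy : ∀ y, ML.dd G y = m := fun y => by unfold ML.dd; rw [hreg]
  have k1 := KK_ge hpos hy.2 hy.1
  have k2 := KK_ge hpos hz.1 hz.2
  rw [hdy] at k1 k2
  have h5 : (0 : ℝ) < 1 / m := by positivity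
  have key : (KK G v u + KK G v w) ^ 2 ≤ ev G v * (2 * ev G v) := by
    apply quad2
    intro x
    have := form3 hVAR G hpos v u w x 1 1
    rw [if_neg huv.symm, if_neg hvw, if_neg huw, k0] at this
    unfold ev at e1 e2 ⊢
    nlinarith
  have h7 : (2 / (m : ℝ)) ^ 2 ≤ (KK G v u + KK G v w) ^ 2 := by
    apply pow_le_pow_left₀ (by positivity)
    have : 2 / (m : ℝ) = 1 / m + 1 / m := by ring
    linarith
  have h8 := h7.trans key
  rw [div_pow, div_le_iff₀ (by positivity)] at h8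
  have h9 : (2 : ℝ) ≤ ((m : ℝ) * ev G v) ^ 2 := by nlinarith
  have h6 : (0 : ℝ) ≤ (m : ℝ) * ev G v := by positivity
  nlinarith

end reg

end E

end Pool.Agent.K6.H56.GP
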