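import Pool.Agent.K6.H56.GP.Stm

/-! # Piece PLN (helper5) -/

set_option autoImplicit false

open Finset

namespace Pool.Agent.K6.H56.GP

open Pool.Agent.H444R3.GapDefs

namespace PLN

variable {V : Type} [Fintype V] {G : SimpleGraph V}

theorem mem_nb {v w : V} : w ∈ nbrs G v ↔ G.Adj v w := by
  unfold nbrs
  simp

theorem mem_cm {u v w : V} : w ∈ common G u v ↔ G.Adj u w ∧ G.Adj v w := by
  unfold common
  simp

/-- two vertices have at most one common neighbour -/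
theorem uniq (h : ∀ u v, u ≠ v → (common G u v).card ≤ 1) {x y z z' : V} (hxy : x ≠ y)
    (h1 : G.Adj x z) (h2 : G.Adj y z) (h3 : G.Adj x z') (h4 : G.Adj y z') : z = z' :=
  Finset.card_le_one.1 (h x y hxy) z (mem_cm.2 ⟨h1, h2⟩) z' (mem_cm.2 ⟨h3, h4⟩)

/-- the relation -/
def E (G : SimpleGraph V) (u v : V) : Prop := u = v ∨ (common G u v).Nonempty

theorem E.symm {u v : V} (h : E G u v) : E G v u := by
  rcases h with h | ⟨w, hw⟩
  · exact Or.inl h.symm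
  · rw [mem_cm] at hw
    exact Or.inr ⟨w, mem_cm.2 ⟨hw.2, hw.1⟩⟩

theorem E.of {u v w : V} (h1 : G.Adj u w) (h2 : G.Adj v w) : E G u v :=
  Or.inr ⟨w, mem_cm.2 ⟨h1, h2⟩⟩

theorem E.trans (ht : ∀ u v w, u ≠ v → v ≠ w → u ≠ w → (common G u v).Nonempty →
    (common G v w).Nonempty → (common G u w).Nonempty) {u v w : V} (h1 : E G u v)
    (h2 : E G v w) : E G u w := by
  by_cases huv : u = v
  · rw [huv]; exact h2
  · by_cases hvw : v = w
    · rw [← hvw]; exact h1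
    · by_cases huw : u = w
      · exact Or.inl huw
      · exact Or.inr (ht u v w huv hvw huw (h1.resolve_left huv) (h2.resolve_left hvw))

theorem comb (S : Fin 4 → Prop) (i j k : Fin 4) (hij : i ≠ j) (hjk : j ≠ k) (hik : i ≠ k)
    (hi : S i) (hj : S j) (hk : S k) :
    (S 0 ∧ S 1 ∧ (S 2 ∨ S 3)) ∨ (S 2 ∧ S 3 ∧ (S 0 ∨ S 1)) := by
  fin_cases i <;> fin_cases j <;> fin_cases k <;> simp at hij hjk hik hi hj hk ⊢ <;> tauto

end PLN

open PLN in
theorem t_PLN : S_PLN := by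
  classical
  intro V _ hne G n hn hdeg hco htr
  obtain ⟨v₀⟩ := hne
  have U : ∀ {x y z z' : V}, x ≠ y → G.Adj x z → G.Adj y z → G.Adj x z' → G.Adj y z' → z = z' :=
    fun h h1 h2 h3 h4 => uniq hco h h1 h2 h3 h4
  have T : ∀ {u v w : V}, E G u v → E G v w → E G u w := fun h1 h2 => E.trans htr h1 h2
  -- two lines through v₀
  obtain ⟨w₀, hw₀, m, hm, hwm⟩ : ∃ a ∈ nbrs G v₀, ∃ b ∈ nbrs G v₀, a ≠ b :=
    Finset.one_lt_card.1 (by rw [hdeg]; omega)
  rw [mem_nb] at hw₀ hm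
  -- neighbours
  have hPL : ∀ p l, E G p v₀ → G.Adj p l → E G l w₀ := by
    intro p l hp hl
    rcases hp with rfl | ⟨x, hx⟩
    · exact E.of hl.symm hw₀.symm
    · rw [mem_cm] at hx
      exact T (E.of hl.symm hx.1.symm) (E.of hx.2.symm hw₀.symm)
  have hLP : ∀ l p, E G l w₀ → G.Adj l p → E G p v₀ := by
    intro l p hl hp
    rcases hl with rfl | ⟨x, hx⟩
    · exact E.of hp.symm hw₀
    · rw [mem_cm] at hx
      exact T (E.of hp.symm hx.1.symm) (E.of hx.2.symm hw₀)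
  have hv₀ : E G v₀ v₀ := Or.inl rfl
  have hw₀' : E G w₀ w₀ := Or.inl rfl
  -- two points on each of the two lines
  have two : ∀ w, G.Adj v₀ w → ∃ a b, G.Adj w a ∧ G.Adj w b ∧ a ≠ b ∧ a ≠ v₀ ∧ b ≠ v₀ := by
    intro w hw
    obtain ⟨a, ha, b, hb, hab⟩ : ∃ a ∈ (nbrs G w).erase v₀, ∃ b ∈ (nbrs G w).erase v₀, a ≠ b :=
      Finset.one_lt_card.1 (by
        rw [Finset.card_erase_of_mem (mem_nb.2 hw.symm), hdeg]
        omega)
    rw [Finset.mem_erase, mem_nb] at ha hb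
    exact ⟨a, b, ha.2, hb.2, hab, ha.1, hb.1⟩
  obtain ⟨a0, a1, h00, h01, hne01, ne0, ne1⟩ := two w₀ hw₀
  obtain ⟨a2, a3, h22, h23, hne23, ne2, ne3⟩ := two m hm
  have cross : ∀ a, G.Adj w₀ a → G.Adj m a → a = v₀ := fun a h1 h2 =>
    U hwm h1 h2 hw₀.symm hm.symm
  have hmL : E G m w₀ := hPL v₀ m hv₀ hm
  refine ⟨{u // E G u v₀}, {u // E G u w₀}, inferInstance, inferInstance,
    fun p l => G.Adj p.1 l.1, ?_, ?_, ?_, ?_⟩
  · intro p q hpq
    have hpq' : p.1 ≠ q.1 := fun h => hpq (Subtype.ext h)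
    obtain ⟨l, hl⟩ := (T p.2 q.2.symm).resolve_left hpq'
    rw [mem_cm] at hl
    refine ⟨⟨l, hPL p.1 l p.2 hl.1⟩, hl, fun l' hl' => Subtype.ext ?_⟩
    exact U hpq' hl'.1 hl'.2 hl.1 hl.2
  · intro l q hlq
    have hlq' : l.1 ≠ q.1 := fun h => hlq (Subtype.ext h)
    obtain ⟨p, hp⟩ := (T l.2 q.2.symm).resolve_left hlq'
    rw [mem_cm] at hp
    refine ⟨⟨p, hLP l.1 p l.2 hp.1⟩, ⟨hp.1.symm, hp.2.symm⟩, fun p' hp' => Subtype.ext ?_⟩
    exact U hlq' hp'.1.symm hp'.2.symm hp.1 hp.2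
  · have g0 : E G a0 v₀ := hLP w₀ a0 hw₀' h00
    have g1 : E G a1 v₀ := hLP w₀ a1 hw₀' h01
    have g2 : E G a2 v₀ := hLP m a2 hmL h22
    have g3 : E G a3 v₀ := hLP m a3 hmL h23
    have n02 : a0 ≠ a2 := fun h => ne0 (cross a0 h00 (h ▸ h22))
    have n03 : a0 ≠ a3 := fun h => ne0 (cross a0 h00 (h ▸ h23))
    have n12 : a1 ≠ a2 := fun h => ne1 (cross a1 h01 (h ▸ h22))
    have n13 : a1 ≠ a3 := fun h => ne1 (cross a1 h01 (h ▸ h23))
    refine ⟨![⟨a0, g0⟩, ⟨a1, g1⟩, ⟨a2, g2⟩, ⟨a3, g3⟩], ?_, ?_⟩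
    · intro i j hij
      fin_cases i <;> fin_cases j <;> simp at hij ⊢
      · exact hne01 hij
      · exact n02 hij
      · exact n03 hij
      · exact hne01 hij.symm
      · exact n12 hij
      · exact n13 hij
      · exact n02 hij.symm
      · exact n12 hij.symm
      · exact hne23 hij
      · exact n03 hij.symm
      · exact n13 hij.symm
      · exact hne23 hij.symm
    · rintro i j k hij hjk hik ⟨l, h1, h2, h3⟩
      rcases comb (fun i => G.Adj ((![⟨a0, g0⟩, ⟨a1, g1⟩, ⟨a2, g2⟩, ⟨a3, g3⟩] :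
        Fin 4 → {u // E G u v₀}) i).1 l.1) i j k hij hjk hik h1 h2 h3 with
        ⟨k0, k1, k2⟩ | ⟨k2, k3, k0⟩
      · have e : l.1 = w₀ := U hne01 k0 k1 h00.symm h01.symm
        rcases k2 with k2 | k2
        · exact ne2 (cross a2 (e ▸ k2.symm) h22)
        · exact ne3 (cross a3 (e ▸ k2.symm) h23)
      · have e : l.1 = m := U hne23 k2 k3 h22.symm h23.symm
        rcases k0 with k0 | k0
        · exact ne0 (cross a0 h00 (e ▸ k0.symm))
        · exact ne1 (cross a1 h01 (e ▸ k0.symm))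
  · refine ⟨⟨w₀, hw₀'⟩, ?_⟩
    have e : {p : {u // E G u v₀} // G.Adj p.1 w₀} ≃ {x // x ∈ nbrs G w₀} :=
      { toFun := fun p => ⟨p.1.1, mem_nb.2 p.2.symm⟩
        invFun := fun x => ⟨⟨x.1, hLP w₀ x.1 hw₀' (mem_nb.1 x.2)⟩, (mem_nb.1 x.2).symm⟩
        left_inv := fun _ => rfl
        right_inv := fun _ => rfl }
    rw [Nat.card_congr e, Nat.card_eq_fintype_card, Fintype.card_coe, hdeg]

end Pool.Agent.K6.H56.GP
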