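import Pool.Agent.K6.H56.GP.Stm

/-! Existence of a finite projective plane; statement of a special case of the Bruck-Ryser theorem. -/

set_option autoImplicit false

namespace Pool.Agent.K6.H56.GP

/-- there is a finite projective plane of order `n` -/
def PlaneExists (n : ℕ) : Prop :=
  ∃ (P L : Type) (_ : Fintype P) (_ : Fintype L) (R : P → L → Prop), IsPlane R n

/-- BR: Bruck-Ryser, by `brc_local` (H177R2.SD.Brc) and `symm_of_rel` (H444R3.GapBrc); the numbers of
points and lines from `Configuration.ProjectivePlane.card_points` of Mathlib -/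
def S_BR : Prop := ∀ n p : ℕ, n % 4 = 2 → p.Prime → p % 4 = 3 → p ∣ n → ¬ p ^ 2 ∣ n →
  ¬ PlaneExists n

end Pool.Agent.K6.H56.GP
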