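import Pool.Agent.K6.H56.GP.E
import Pool.Agent.K6.H56.GP.PLN
import Pool.Agent.K6.H56.GP.Stm2
import Pool.Agent.H444R3.GapConf

/-! Upper bound in the family of graphs of minimum degree at least `d`, and design graphs. -/

set_option autoImplicit false

open Finset

namespace Pool.Agent.K6.H56.GP

open Pool.Agent.H444R3.GapDefs

/-- there is a symmetric `(v, d, l)` design for some `v ≥ 1`: `v` points, `v` blocks with exactly `d`
points, any two distinct points in exactly `l` common blocks -/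
def SymDesign (d l : ℕ) : Prop :=
  ∃ (P B : Type) (_ : Fintype P) (_ : Fintype B) (R : P → B → Prop),
    0 < Fintype.card P ∧ Fintype.card P = Fintype.card B ∧ (∀ b, Nat.card {p // R p b} = d) ∧
    ∀ p q, p ≠ q → Nat.card {b // R p b ∧ R q b} = l

namespace FIN

variable {V : Type} [Fintype V]

theorem reg_plane (hVAR : S_VAR) [Nonempty V] (G : SimpleGraph V) (m : ℕ) (hm : 4 ≤ m)
    (hreg : ∀ v, (nbrs G v).card = m)
    (hk : (m : ℝ) - (m : ℝ) ^ 2 * gap G ^ 2 < 1 + 1 / (3 * ((m : ℝ) + 1))) :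
    PlaneExists (m - 1) :=
  t_PLN V G (m - 1) (by omega) (fun v => by rw [hreg]; omega)
    (E.reg_one hVAR G m hm hreg hk) (E.reg_trans hVAR G m hm hreg hk)

lemma all_of_conn {G : SimpleGraph V} (hc : G.Connected) (p : V → Prop)
    (h : ∀ x y, p x → G.Adj x y → p y) (x : V) (hx : p x) (y : V) : p y := by
  obtain ⟨w⟩ := hc.preconnected x y
  induction w with
  | nil => exact hx
  | cons hadj _ ih => exact ih (h _ _ hx hadj)

lemma num1 {d m : ℝ} (hd : 4 ≤ d) (hm : d + 1 ≤ m) :
    (m - 1) / m ^ 2 ≤ (d - 1 - 1 / (3 * (d + 1))) / d ^ 2 := by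
  have h15 : 1 / (3 * (d + 1)) ≤ 1 / 15 := by
    apply one_div_le_one_div_of_le (by norm_num)
    linarith
  have hdp : 0 < d := by linarith
  have hmp : 0 < m := by linarith
  rw [div_le_div_iff₀ (by positivity) (by positivity)]
  have h1 : (d - 16 / 15) * m ^ 2 ≤ (d - 1 - 1 / (3 * (d + 1))) * m ^ 2 := by
    apply mul_le_mul_of_nonneg_right _ (by positivity)
    linarith
  refine le_trans ?_ h1
  obtain ⟨u, rfl⟩ : ∃ u, d = u + 4 := ⟨d - 4, by ring⟩
  obtain ⟨t, rfl⟩ : ∃ t, m = t + u + 5 := ⟨m - u - 5, by ring⟩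
  have hu : 0 ≤ u := by linarith
  have ht : 0 ≤ t := by linarith
  have : (u + 4 - 16 / 15) * (t + u + 5) ^ 2 - (t + u + 5 - 1) * (u + 4) ^ 2 =
      (14 / 15 * u ^ 2 + 19 / 3 * u + 28 / 3) + t * (u ^ 2 + 118 / 15 * u + 40 / 3) +
        (u + 44 / 15) * t ^ 2 := by ring
  have h2 : 0 ≤ (14 / 15 * u ^ 2 + 19 / 3 * u + 28 / 3) + t * (u ^ 2 + 118 / 15 * u + 40 / 3) +
        (u + 44 / 15) * t ^ 2 := by positivity
  linarith

theorem upper (hVAR : S_VAR) (d : ℕ) (hd : 4 ≤ d)
    (G : SimpleGraph V) (hG : IsMinDeg d G)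
    (hno : ¬ PlaneExists (d - 1) ∨ ¬ ∀ v, (nbrs G v).card = d) :
    gap G ^ 2 ≤ ((d : ℝ) - 1 - 1 / (3 * ((d : ℝ) + 1))) / (d : ℝ) ^ 2 := by
  obtain ⟨hc, h3, hdeg⟩ := hG
  haveI : Nonempty V := Fintype.card_pos_iff.1 (by omega)
  obtain ⟨x0, -, hx0⟩ := Finset.exists_min_image Finset.univ (fun x => (nbrs G x).card)
    Finset.univ_nonempty
  obtain ⟨m, hm⟩ : ∃ m, m = (nbrs G x0).card := ⟨_, rfl⟩
  have hmin : ∀ x, m ≤ (nbrs G x).card := fun x => by rw [hm]; exact hx0 x (Finset.mem_univ x)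
  have hdm : d ≤ m := by rw [hm]; exact hdeg x0
  have hpos : ∀ v, 0 < (nbrs G v).card := fun v => lt_of_lt_of_le (by omega) (hdeg v)
  have hD : (4 : ℝ) ≤ d := by exact_mod_cast hd
  have hM : (4 : ℝ) ≤ m := by exact_mod_cast (hd.trans hdm)
  have hmpos : (0 : ℝ) < (m : ℝ) ^ 2 := by positivity
  by_cases hk : (m : ℝ) - (m : ℝ) ^ 2 * gap G ^ 2 < 1 + 1 / (3 * ((m : ℝ) + 1))
  · have hreg : ∀ v, (nbrs G v).card = m := by
      apply all_of_conn hc (fun v => (nbrs G v).card = m) _ x0 hm.symm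
      intro x y hx hxy
      exact ML.main G m (gap G ^ 2) (hd.trans hdm) hmin hk (E.H1 hVAR G hpos m)
        (E.H2 hVAR G hpos m) x y hx hxy
    rcases eq_or_lt_of_le hdm with h | h
    · subst h
      rcases hno with hno | hno
      · exact absurd (reg_plane hVAR G d hd hreg hk) hno
      · exact absurd hreg hno
    · have hlt : (d : ℝ) + 1 ≤ m := by exact_mod_cast h
      obtain ⟨u, hu, v, hv, huv⟩ := Finset.one_lt_card.1
        (show 1 < (nbrs G x0).card by rw [← hm]; omega)
      rw [E.mem_nb] at hu hv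
      have h5 := E.reg_up hVAR G m (hd.trans hdm) hreg huv hu.symm hv.symm
      refine le_trans ?_ (num1 hD hlt)
      rw [le_div_iff₀ hmpos]
      linarith
  · push Not at hk
    have h0 : 0 < 1 / (3 * ((m : ℝ) + 1)) := by positivity
    rcases eq_or_lt_of_le hdm with h | h
    · subst h
      rw [le_div_iff₀ hmpos]
      linarith
    · have hlt : (d : ℝ) + 1 ≤ m := by exact_mod_cast h
      refine le_trans ?_ (num1 hD hlt)
      rw [le_div_iff₀ hmpos]
      linarith

theorem upper_gap (hVAR : S_VAR) (d : ℕ) (hd : 4 ≤ d)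
    (G : SimpleGraph V) (hG : IsMinDeg d G)
    (hno : ¬ PlaneExists (d - 1) ∨ ¬ ∀ v, (nbrs G v).card = d) :
    gap G ≤ Real.sqrt ((d : ℝ) - 1 - 1 / (3 * ((d : ℝ) + 1))) / d := by
  have hD : (4 : ℝ) ≤ d := by exact_mod_cast hd
  have h1 := upper hVAR d hd G hG hno
  rw [le_div_iff₀ (by positivity)] at h1 ⊢
  apply Real.le_sqrt_of_sq_le
  rw [mul_pow]
  exact h1

theorem upper_sup (hVAR : S_VAR) (d : ℕ) (hd : 4 ≤ d) (hno : ¬ PlaneExists (d - 1)) :
    sSup (gapsMin d) ≤ Real.sqrt ((d : ℝ) - 1 - 1 / (3 * ((d : ℝ) + 1))) / d := by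
  apply csSup_le
  · obtain ⟨p, hp1, hp2⟩ := Nat.exists_infinite_primes d
    exact ⟨_, gap_prime_pow p hp2.isPrimePow d (by omega)⟩
  · rintro r ⟨V, hV, G, hG, rfl⟩
    exact upper_gap hVAR d hd G hG (Or.inl hno)

open Classical in
/-- a design graph with `l = 1` gives a projective plane -/
theorem plane_of_design (G : SimpleGraph V) (d : ℕ) (hd : 4 ≤ d) [Nonempty V] (P : Finset V)
    (hbip : ∀ u v, G.Adj u v → (u ∈ P ↔ v ∉ P)) (hreg : ∀ v, (nbrs G v).card = d)
    (hcard : Pᶜ.card = P.card) (hpar : d * d = d + 1 * (P.card - 1))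
    (hl : ∀ x ∈ P, ∀ y ∈ P, x ≠ y → (common G x y).card = 1) : PlaneExists (d - 1) := by
  -- two blocks have at most one common point
  have key : ∀ p q b c, p ≠ q → G.Adj p b → G.Adj p c → G.Adj q b → G.Adj q c → b = c := by
    have key' : ∀ p q b c, p ∈ P → p ≠ q → G.Adj p b → G.Adj p c → G.Adj q b → G.Adj q c →
        b = c := by
      intro p q b c hp hpq h1 h2 h3 h4
      have hb : b ∉ P := (hbip p b h1).1 hp
      have hq : q ∈ P := (hbip q b h3).2 hb
      exact Finset.card_le_one.1 (hl p hp q hq hpq).le b (E.mem_cm.2 ⟨h1, h3⟩) c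
        (E.mem_cm.2 ⟨h2, h4⟩)
    intro p q b c hpq h1 h2 h3 h4
    by_cases hp : p ∈ P
    · exact key' p q b c hp hpq h1 h2 h3 h4
    · by_contra hbc
      have hb : b ∈ P := by
        by_contra hb
        exact hp ((hbip p b h1).2 hb)
      exact hpq (key' b c p q hb hbc h1.symm h3.symm h2.symm h4.symm)
  have hone : ∀ u v, u ≠ v → (common G u v).card ≤ 1 := by
    intro u v huv
    apply Finset.card_le_one.2
    intro x hx y hy
    rw [E.mem_cm] at hx hy
    exact key u v x y huv hx.1 hy.1 hx.2 hy.2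
  -- two blocks meet
  have hmeet : ∀ b c, b ∉ P → c ∉ P → b ≠ c → (common G b c).Nonempty := by
    intro b c hb hc hbc
    set A : V → Finset V := fun p => (nbrs G p).erase b with hA
    have hdis : ∀ p ∈ nbrs G b, ∀ q ∈ nbrs G b, p ≠ q → Disjoint (A p) (A q) := by
      intro p hp q hq hpq
      rw [Finset.disjoint_left]
      intro e he1 he2
      rw [hA] at he1 he2
      simp only [Finset.mem_erase, E.mem_nb] at he1 he2
      rw [E.mem_nb] at hp hq
      exact he1.1 (key p q e b hpq he1.2 hp.symm he2.2 hq.symm)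
    have hcardU : ((nbrs G b).biUnion A).card = d * (d - 1) := by
      rw [Finset.card_biUnion hdis]
      have : ∀ p ∈ nbrs G b, (A p).card = d - 1 := by
        intro p hp
        rw [hA]
        simp only
        rw [Finset.card_erase_of_mem, hreg]
        rw [E.mem_nb] at hp ⊢
        exact hp.symm
      rw [Finset.sum_congr rfl this, Finset.sum_const, hreg, smul_eq_mul]
    have hsub : (nbrs G b).biUnion A ⊆ Pᶜ.erase b := by
      intro e he
      rw [Finset.mem_biUnion] at he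
      obtain ⟨p, hp, he⟩ := he
      rw [hA] at he
      simp only [Finset.mem_erase, E.mem_nb] at he
      rw [E.mem_nb] at hp
      rw [Finset.mem_erase, Finset.mem_compl]
      refine ⟨he.1, (hbip p e he.2).1 ?_⟩
      by_contra hpP
      exact hb ((hbip b p hp).2 hpP)
    have hcardE : (Pᶜ.erase b).card = d * (d - 1) := by
      rw [Finset.card_erase_of_mem (Finset.mem_compl.2 hb), hcard]
      obtain ⟨k, rfl⟩ : ∃ k, d = k + 1 := ⟨d - 1, by omega⟩
      have : (k + 1) * (k + 1) = (k + 1) + (k + 1) * k := by ring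
      simp only [Nat.add_sub_cancel]
      omega
    have heq := Finset.eq_of_subset_of_card_le hsub (by rw [hcardU, hcardE])
    have hcm : c ∈ (nbrs G b).biUnion A := by
      rw [heq, Finset.mem_erase, Finset.mem_compl]
      exact ⟨hbc.symm, hc⟩
    rw [Finset.mem_biUnion] at hcm
    obtain ⟨p, hp, he⟩ := hcm
    rw [hA] at he
    simp only [Finset.mem_erase, E.mem_nb] at he
    rw [E.mem_nb] at hp
    exact ⟨p, E.mem_cm.2 ⟨hp, he.2.symm⟩⟩
  have hside : ∀ u v, (common G u v).Nonempty → (u ∈ P ↔ v ∈ P) := by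
    rintro u v ⟨x, hx⟩
    rw [E.mem_cm] at hx
    rw [hbip u x hx.1, hbip v x hx.2]
  apply t_PLN V G (d - 1) (by omega) (fun v => by rw [hreg]; omega) hone
  intro u v w huv hvw huw h1 h2
  have e1 := hside u v h1
  have e2 := hside v w h2
  by_cases hu : u ∈ P
  · have hw : w ∈ P := e2.1 (e1.1 hu)
    rw [← Finset.card_pos, hl u hu w hw huw]
    exact Nat.one_pos
  · have hw : w ∉ P := fun h => hu (e1.2 (e2.2 h))
    exact hmeet u w hu hw huw

open Classical in
theorem design_up (d j : ℕ) (hd : 4 ≤ d) (hno : ¬ PlaneExists (d - 1))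
    (hno' : ∀ l, 2 ≤ l → l ≤ j → ¬ SymDesign d l)
    (G : SimpleGraph V) (hG : IsMinDeg d G) (hD : IsDesignGraph G d) :
    gap G ≤ Real.sqrt ((d : ℝ) - 1 - j) / d := by
  obtain ⟨hc, h3, hdeg⟩ := hG
  haveI : Nonempty V := Fintype.card_pos_iff.1 (by omega)
  obtain ⟨P, l, hbip, hk, hl⟩ := hD
  have hd4 : (4 : ℝ) ≤ d := by exact_mod_cast hd
  rcases design_reg G (by omega) hdeg hbip hk hl with h | ⟨hreg, hcard, hdP, hpar, hld, hgap⟩
  · exact h.trans (by positivity)
  · have hcard' : Pᶜ.card = P.card := by convert hcard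
    rcases Nat.lt_or_ge j l with h2 | h2
    · refine hgap.trans ?_
      apply div_le_div_of_nonneg_right _ (by positivity)
      apply Real.sqrt_le_sqrt
      have : (j : ℝ) + 1 ≤ l := by exact_mod_cast h2
      linarith
    · exfalso
      rcases Nat.lt_or_ge l 2 with h4 | h4
      · interval_cases l
        · have : d * d ≥ 4 * d := Nat.mul_le_mul_right d hd
          omega
        · exact hno (plane_of_design G d hd P hbip hreg hcard' hpar hl)
      · apply hno' l h4 h2
        refine ⟨{x // x ∈ P}, {x // x ∈ Pᶜ}, inferInstance, inferInstance,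
          fun a b => G.Adj a.1 b.1, ?_, ?_, ?_, ?_⟩
        · rw [Fintype.card_coe]
          omega
        · rw [Fintype.card_coe, Fintype.card_coe, hcard']
        · rintro ⟨b, hb⟩
          have e : {p : {x // x ∈ P} // G.Adj p.1 b} ≃ {x // x ∈ nbrs G b} :=
            { toFun := fun p => ⟨p.1.1, E.mem_nb.2 p.2.symm⟩
              invFun := fun x => ⟨⟨x.1, by
                have hx := E.mem_nb.1 x.2
                by_contra hp
                exact (Finset.mem_compl.1 hb) ((hbip b x.1 hx).2 hp)⟩, (E.mem_nb.1 x.2).symm⟩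
              left_inv := fun _ => rfl
              right_inv := fun _ => rfl }
          rw [Nat.card_congr e, Nat.card_eq_fintype_card, Fintype.card_coe, hreg]
        · rintro ⟨a, ha⟩ ⟨a', ha'⟩ hne
          have hne' : a ≠ a' := fun h => hne (Subtype.ext h)
          have e : {b : {x // x ∈ Pᶜ} // G.Adj a b.1 ∧ G.Adj a' b.1} ≃
              {x // x ∈ common G a a'} :=
            { toFun := fun b => ⟨b.1.1, E.mem_cm.2 b.2⟩
              invFun := fun x => ⟨⟨x.1, by
                have hx := E.mem_cm.1 x.2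
                exact Finset.mem_compl.2 ((hbip a x.1 hx.1).1 ha)⟩, E.mem_cm.1 x.2⟩
              left_inv := fun _ => rfl
              right_inv := fun _ => rfl }
          rw [Nat.card_congr e, Nat.card_eq_fintype_card, Fintype.card_coe, hl a ha a' ha' hne']

theorem lower (d j : ℕ) (hd : 4 ≤ d) (hj : 1 ≤ j) (hpp : IsPrimePow (d - 1 + j)) :
    Real.sqrt ((d : ℝ) - 1 + j) / ((d : ℝ) + j) ≤ sSup (gapsMin d) := by
  have h := le_csSup (bdd_gapsMin d (by omega)) (gap_prime_pow (d - 1 + j) hpp d (by omega))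
  have e : ((d - 1 + j : ℕ) : ℝ) = (d : ℝ) - 1 + j := by
    rw [Nat.cast_add, Nat.cast_sub (by omega)]
    simp
  rw [e] at h
  have e2 : (d : ℝ) - 1 + j + 1 = d + j := by ring
  rw [e2] at h
  exact h

lemma num2 {d j : ℝ} (hd : 4 ≤ d) (hj : 1 ≤ j) :
    Real.sqrt (d - 1 - j) / d < Real.sqrt (d - 1 + j) / (d + j) := by
  rcases le_or_gt (d - 1 - j) 0 with h0 | h0
  · rw [Real.sqrt_eq_zero_of_nonpos h0, zero_div]
    have : 0 < d - 1 + j := by linarith
    have : 0 < d + j := by linarith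
    positivity
  · rw [div_lt_div_iff₀ (by linarith) (by linarith)]
    have h1 : Real.sqrt (d - 1 - j) * (d + j) = Real.sqrt ((d - 1 - j) * (d + j) ^ 2) := by
      rw [Real.sqrt_mul (by linarith), Real.sqrt_sq (by linarith)]
    have h2 : Real.sqrt (d - 1 + j) * d = Real.sqrt ((d - 1 + j) * d ^ 2) := by
      rw [Real.sqrt_mul (by linarith), Real.sqrt_sq (by linarith)]
    rw [h1, h2]
    apply Real.sqrt_lt_sqrt
    · have : 0 ≤ d - 1 - j := by linarith
      positivity
    · have e : (d - 1 + j) * d ^ 2 - (d - 1 - j) * (d + j) ^ 2 =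
          d * (j ^ 2 + 2 * j) + j ^ 2 * (1 + j) := by ring
      have : 0 < d * (j ^ 2 + 2 * j) + j ^ 2 * (1 + j) := by
        have : 0 < j := by linarith
        have : 0 < d := by linarith
        positivity
      linarith

/-- primes `7 (mod 72)` -/
theorem inf_d : {d : ℕ | d.Prime ∧ d % 4 = 3 ∧ 4 ≤ d ∧
    ∃ p : ℕ, p.Prime ∧ p % 4 = 3 ∧ p ∣ d - 1 ∧ ¬ p ^ 2 ∣ d - 1}.Infinite := by
  rw [Set.infinite_iff_exists_gt]
  intro n
  have hu : IsUnit (7 : ZMod 72) := by
    have := (ZMod.isUnit_iff_coprime 7 72).2 (by norm_num)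
    exact_mod_cast this
  obtain ⟨q, hq, hqp, hq2⟩ := Nat.forall_exists_prime_gt_and_eq_mod hu n
  have h : q % 72 = 7 := by
    have := (ZMod.natCast_eq_natCast_iff q 7 72).1 (by simpa using hq2)
    exact this
  refine ⟨q, ⟨hqp, by omega, by omega, 3, Nat.prime_three, by norm_num, by omega, ?_⟩, hq⟩
  norm_num
  omega

end FIN

end Pool.Agent.K6.H56.GP
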