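import Pool.Agent.K6.H56.GP.Stm

/-! The main estimate: a vertex of minimal degree has only neighbours of minimal degree. -/

set_option autoImplicit false

open Finset

namespace Pool.Agent.K6.H56.GP

open Pool.Agent.H444R3.GapDefs

namespace ML

variable {V : Type} [Fintype V]

/-- the degree, as a real number -/
noncomputable def dd (G : SimpleGraph V) (x : V) : ℝ := ((nbrs G x).card : ℝ)

noncomputable def cc (G : SimpleGraph V) (m : ℕ) (g2 : ℝ) (x : V) : ℝ :=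
  (m : ℝ) ^ 2 / dd G x - (m : ℝ) ^ 2 * g2

noncomputable def ee (G : SimpleGraph V) (m : ℕ) (g2 : ℝ) (u : V) : ℝ :=
  ∑ x ∈ nbrs G u, cc G m g2 x

lemma sum_split (s : Finset V) (a : V) (ha : a ∈ s) (f : V → ℝ) (A B : ℝ) (hA : f a ≤ A)
    (hB : ∀ x ∈ s, x ≠ a → f x ≤ B) : ∑ x ∈ s, f x ≤ A + ((s.card : ℝ) - 1) * B := by
  classical
  rw [← Finset.add_sum_erase s f ha]
  have h1 : ∑ x ∈ s.erase a, f x ≤ ∑ x ∈ s.erase a, B :=
    Finset.sum_le_sum fun x hx => hB x (Finset.mem_of_mem_erase hx) (Finset.ne_of_mem_erase hx)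
  rw [Finset.sum_const, Finset.card_erase_of_mem ha, nsmul_eq_mul,
    Nat.cast_pred (Finset.card_pos.2 ⟨a, ha⟩)] at h1
  linarith

section

variable (G : SimpleGraph V) (m : ℕ) (g2 : ℝ) (hm : 4 ≤ m) (hmin : ∀ x, m ≤ (nbrs G x).card)
  (hk : (m : ℝ) - (m : ℝ) ^ 2 * g2 < 1 + 1 / (3 * ((m : ℝ) + 1)))
  (H1 : ∀ u, 0 ≤ ee G m g2 u)
  (H2 : ∀ u v y, u ≠ v → G.Adj u y → G.Adj v y →
    (m : ℝ) ^ 4 / dd G y ^ 2 ≤ ee G m g2 u * ee G m g2 v)

include hm hmin in
lemma cc_le (x : V) : cc G m g2 x ≤ (m : ℝ) - (m : ℝ) ^ 2 * g2 := by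
  have hM : (4 : ℝ) ≤ m := by exact_mod_cast hm
  have hd : (m : ℝ) ≤ dd G x := by
    unfold dd
    exact_mod_cast hmin x
  unfold cc
  have : (m : ℝ) ^ 2 / dd G x ≤ m := by
    rw [div_le_iff₀ (by linarith)]
    nlinarith
  linarith

include hm hmin in
lemma cc_le' (x : V) (hx : (nbrs G x).card ≠ m) :
    cc G m g2 x ≤ (m : ℝ) - (m : ℝ) ^ 2 * g2 - m / ((m : ℝ) + 1) := by
  have hM : (4 : ℝ) ≤ m := by exact_mod_cast hm
  have hd : (m : ℝ) + 1 ≤ dd G x := by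
    unfold dd
    have : m + 1 ≤ (nbrs G x).card := by
      have := hmin x
      omega
    exact_mod_cast this
  unfold cc
  have h1 : (m : ℝ) ^ 2 / dd G x ≤ (m : ℝ) ^ 2 / ((m : ℝ) + 1) :=
    div_le_div_of_nonneg_left (by positivity) (by linarith) hd
  have h2 : (m : ℝ) ^ 2 / ((m : ℝ) + 1) = m - m / ((m : ℝ) + 1) := by
    field_simp
    ring
  linarith

include hm hmin hk in
/-- an `A`-vertex -/
lemma ee_A (u : V) (hu : (nbrs G u).card = m) :
    ee G m g2 u ≤ m * ((m : ℝ) - (m : ℝ) ^ 2 * g2) := by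
  unfold ee
  have h1 : ∑ x ∈ nbrs G u, cc G m g2 x ≤ ∑ x ∈ nbrs G u, ((m : ℝ) - (m : ℝ) ^ 2 * g2) :=
    Finset.sum_le_sum fun x _ => cc_le G m g2 hm hmin x
  rw [Finset.sum_const, hu, nsmul_eq_mul] at h1
  exact h1

include hm hmin hk in
/-- an `A`-vertex with another neighbour -/
lemma ee_AB (u h : V) (hu : (nbrs G u).card = m) (hh : G.Adj u h) (hh' : (nbrs G h).card ≠ m) :
    ee G m g2 u ≤ m * ((m : ℝ) - (m : ℝ) ^ 2 * g2) - m / ((m : ℝ) + 1) := by
  unfold ee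
  have h1 := sum_split (nbrs G u) h ((mem_nbrs G u h).2 hh) (cc G m g2) _ _
    (cc_le' G m g2 hm hmin h hh') (fun x _ _ => cc_le G m g2 hm hmin x)
  rw [hu] at h1
  linarith

include hm hmin hk in
/-- only one neighbour is an `A`-vertex -/
lemma ee_one (u a : V) (hu : G.Adj u a) (h : ∀ x, G.Adj u x → x ≠ a → (nbrs G x).card ≠ m) :
    ee G m g2 u ≤ ((m : ℝ) - (m : ℝ) ^ 2 * g2) +
      (((nbrs G u).card : ℝ) - 1) * ((m : ℝ) - (m : ℝ) ^ 2 * g2 - m / ((m : ℝ) + 1)) := by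
  unfold ee
  exact sum_split (nbrs G u) a ((mem_nbrs G u a).2 hu) (cc G m g2) _ _
    (cc_le G m g2 hm hmin a) (fun x hx hxa =>
      cc_le' G m g2 hm hmin x (h x ((mem_nbrs G u x).1 hx) hxa))

include hm hmin hk in
lemma ee_T (u a : V) (hu' : (nbrs G u).card = m) (hu : G.Adj u a)
    (h : ∀ x, G.Adj u x → x ≠ a → (nbrs G x).card ≠ m) :
    ee G m g2 u < 7 * m / (3 * ((m : ℝ) + 1)) := by
  have hM : (4 : ℝ) ≤ m := by exact_mod_cast hm
  have h1 := ee_one G m g2 hm hmin hk u a hu h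
  rw [hu'] at h1
  refine h1.trans_lt ?_
  set κ := (m : ℝ) - (m : ℝ) ^ 2 * g2 with hκ
  have h2 : κ + ((m : ℝ) - 1) * (κ - m / ((m : ℝ) + 1)) =
      m * κ - (m - 1) * m / ((m : ℝ) + 1) := by
    field_simp
    ring
  rw [h2]
  have h3 : (m : ℝ) * κ < m * (1 + 1 / (3 * ((m : ℝ) + 1))) :=
    mul_lt_mul_of_pos_left hk (by linarith)
  have h4 : (m : ℝ) * (1 + 1 / (3 * ((m : ℝ) + 1))) - (m - 1) * m / ((m : ℝ) + 1) =
      7 * m / (3 * ((m : ℝ) + 1)) := by
    field_simp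
    ring
  linarith

include hm hmin hk H1 H2 in
/-- P3, first part -/
lemma step1 (x h y u : V) (hx : (nbrs G x).card = m) (hh : G.Adj x h)
    (hh' : (nbrs G h).card ≠ m) (hy : G.Adj x y) (hy' : (nbrs G y).card = m) (hu : G.Adj y u)
    (hux : u ≠ x) : (nbrs G u).card ≠ m := by
  intro huA
  have hM : (4 : ℝ) ≤ m := by exact_mod_cast hm
  have h1 := H2 x u y hux.symm hy hu.symm
  have hdy : dd G y = m := by unfold dd; rw [hy']
  rw [hdy] at h1
  have h2 : (m : ℝ) ^ 4 / (m : ℝ) ^ 2 = (m : ℝ) ^ 2 := by field_simp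
  rw [h2] at h1
  have h3 := ee_AB G m g2 hm hmin hk x h hx hh hh'
  have h4 := ee_A G m g2 hm hmin hk u huA
  have h5 := H1 x
  have h6 := H1 u
  set κ := (m : ℝ) - (m : ℝ) ^ 2 * g2 with hκ
  have h7 : ee G m g2 x * ee G m g2 u ≤ (m * κ - m / ((m : ℝ) + 1)) * (m * κ) :=
    mul_le_mul h3 h4 h6 (h5.trans h3)
  have h8 : 0 ≤ m * κ := h6.trans h4
  have hκ0 : 0 ≤ κ := by
    by_contra hneg
    push Not at hneg
    nlinarith
  have h9 : (m * κ - m / ((m : ℝ) + 1)) * (m * κ) = (m : ℝ) ^ 2 * ((κ - 1 / ((m : ℝ) + 1)) * κ) := by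
    field_simp
  have h10 : (κ - 1 / ((m : ℝ) + 1)) * κ < 1 := by
    set t := 1 / (3 * ((m : ℝ) + 1)) with ht
    have ht0 : 0 < t := by positivity
    have ht1 : 1 / ((m : ℝ) + 1) = 3 * t := by
      rw [ht]; field_simp
    rw [ht1]
    have ht2 : t ≤ 1 / 15 := by
      rw [ht]
      apply one_div_le_one_div_of_le (by norm_num)
      linarith
    nlinarith
  have h11 : (m : ℝ) ^ 2 * ((κ - 1 / ((m : ℝ) + 1)) * κ) < (m : ℝ) ^ 2 * 1 :=
    mul_lt_mul_of_pos_left h10 (by positivity)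
  linarith

include hm hmin hk H1 H2 in
/-- P3: at most one neighbour is an `A`-vertex, and then `ee x` is small -/
lemma step2 (x h : V) (hx : (nbrs G x).card = m) (hh : G.Adj x h) (hh' : (nbrs G h).card ≠ m) :
    ∃ a, G.Adj x a ∧ ∀ u, G.Adj x u → u ≠ a → (nbrs G u).card ≠ m := by
  by_cases hA : ∃ y, G.Adj x y ∧ (nbrs G y).card = m
  · obtain ⟨y, hy, hy'⟩ := hA
    refine ⟨y, hy, fun u hu huy huA => ?_⟩
    have hM : (4 : ℝ) ≤ m := by exact_mod_cast hm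
    have h1 := ee_T G m g2 hm hmin hk y x hy' hy.symm (fun w hw hwx =>
      step1 G m g2 hm hmin hk H1 H2 x h y w hx hh hh' hy hy' hw hwx)
    have h2 := H2 u y x huy hu.symm hy.symm
    have hdx : dd G x = m := by unfold dd; rw [hx]
    rw [hdx] at h2
    have h3 : (m : ℝ) ^ 4 / (m : ℝ) ^ 2 = (m : ℝ) ^ 2 := by field_simp
    rw [h3] at h2
    have h4 := ee_A G m g2 hm hmin hk u huA
    have h5 := H1 u
    have h6 := H1 y
    set κ := (m : ℝ) - (m : ℝ) ^ 2 * g2 with hκ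
    have h7 : ee G m g2 u * ee G m g2 y ≤ (m * κ) * (7 * m / (3 * ((m : ℝ) + 1))) :=
      mul_le_mul h4 h1.le h6 (h5.trans h4)
    have h8 : (m * κ) * (7 * m / (3 * ((m : ℝ) + 1))) =
        (m : ℝ) ^ 2 * (κ * (7 / (3 * ((m : ℝ) + 1)))) := by
      field_simp
    have h9 : κ * (7 / (3 * ((m : ℝ) + 1))) < 1 := by
      have e1 : 7 / (3 * ((m : ℝ) + 1)) ≤ 7 / 15 := by
        apply div_le_div_of_nonneg_left (by norm_num) (by norm_num)
        linarith
      have e2 : 0 < 7 / (3 * ((m : ℝ) + 1)) := by positivity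
      have e3 : 1 / (3 * ((m : ℝ) + 1)) ≤ 1 / 15 := by
        apply one_div_le_one_div_of_le (by norm_num)
        linarith
      have e4 : κ < 16 / 15 := by linarith
      by_cases hκ0 : 0 ≤ κ
      · calc κ * (7 / (3 * ((m : ℝ) + 1))) ≤ κ * (7 / 15) := mul_le_mul_of_nonneg_left e1 hκ0
          _ < 1 := by linarith
      · push Not at hκ0
        have := mul_neg_of_neg_of_pos hκ0 e2
        linarith
    have h10 : (m : ℝ) ^ 2 * (κ * (7 / (3 * ((m : ℝ) + 1)))) < (m : ℝ) ^ 2 * 1 :=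
      mul_lt_mul_of_pos_left h9 (by positivity)
    linarith
  · push Not at hA
    exact ⟨h, hh, fun u hu _ => hA u hu⟩

include hm hmin hk H1 H2 in
lemma step3 (x h : V) (hx : (nbrs G x).card = m) (hh : G.Adj x h) (hh' : (nbrs G h).card ≠ m) :
    ee G m g2 x < 7 * m / (3 * ((m : ℝ) + 1)) := by
  obtain ⟨a, ha, hall⟩ := step2 G m g2 hm hmin hk H1 H2 x h hx hh hh'
  exact ee_T G m g2 hm hmin hk x a hx ha hall

include hm hmin hk H1 H2 in
/-- P4: good neighbours have a large degree -/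
lemma step4 (x u : V) (hx : (nbrs G x).card = m) (hu : G.Adj x u) (hu' : (nbrs G u).card ≠ m)
    (hgood : (m : ℝ) ≤ ee G m g2 u) : 3 * (m : ℝ) * (m + 1) < 7 * dd G u := by
  have hM : (4 : ℝ) ≤ m := by exact_mod_cast hm
  have hdu : (m : ℝ) ≤ dd G u := by
    unfold dd
    exact_mod_cast hmin u
  by_cases hex : ∃ x', G.Adj u x' ∧ x' ≠ x ∧ (nbrs G x').card = m
  · obtain ⟨x', hx', hne, hA⟩ := hex
    have h1 := step3 G m g2 hm hmin hk H1 H2 x u hx hu hu'
    have h2 := step3 G m g2 hm hmin hk H1 H2 x' u hA hx'.symm hu'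
    have h3 := H2 x x' u hne.symm hu hx'.symm
    have h4 := H1 x
    have h5 := H1 x'
    set T := 7 * (m : ℝ) / (3 * ((m : ℝ) + 1)) with hT
    have hT0 : 0 < T := by positivity
    have h6 : ee G m g2 x * ee G m g2 x' < T * T := by
      calc ee G m g2 x * ee G m g2 x' ≤ ee G m g2 x * T := mul_le_mul_of_nonneg_left h2.le h4
        _ < T * T := mul_lt_mul_of_pos_right h1 hT0
    have h7 : ((m : ℝ) ^ 2 / dd G u) ^ 2 < T ^ 2 := by
      rw [div_pow, ← pow_mul]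
      calc (m : ℝ) ^ (2 * 2) / dd G u ^ 2 = (m : ℝ) ^ 4 / dd G u ^ 2 := by norm_num
        _ ≤ _ := h3
        _ < T * T := h6
        _ = T ^ 2 := by ring
    have h8 : (m : ℝ) ^ 2 / dd G u < T := lt_of_pow_lt_pow_left₀ 2 hT0.le h7
    rw [div_lt_iff₀ (by linarith), hT, div_mul_eq_mul_div, lt_div_iff₀ (by positivity)] at h8
    nlinarith
  · push Not at hex
    have h1 := ee_one G m g2 hm hmin hk u x hu.symm (fun w hw hwx => hex w hw hwx)
    have h2 : (((nbrs G u).card : ℝ) - 1) * ((m : ℝ) - (m : ℝ) ^ 2 * g2 - m / ((m : ℝ) + 1)) ≤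
        (((nbrs G u).card : ℝ) - 1) * (4 / (3 * ((m : ℝ) + 1))) := by
      apply mul_le_mul_of_nonneg_left
      · have e1 : m / ((m : ℝ) + 1) = 1 - 1 / ((m : ℝ) + 1) := by
          field_simp
          ring
        have e2 : 4 / (3 * ((m : ℝ) + 1)) = 1 / (3 * ((m : ℝ) + 1)) + 1 / ((m : ℝ) + 1) := by
          field_simp
          ring
        rw [e1, e2]
        linarith
      · have : dd G u = ((nbrs G u).card : ℝ) := rfl
        linarith
    have h3 : (m : ℝ) < 1 + 1 / (3 * ((m : ℝ) + 1)) + (dd G u - 1) * (4 / (3 * ((m : ℝ) + 1))) := by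
      have : dd G u = ((nbrs G u).card : ℝ) := rfl
      rw [this]
      linarith
    have h4 : (m : ℝ) * (3 * ((m : ℝ) + 1)) < 3 * ((m : ℝ) + 1) + 1 + (dd G u - 1) * 4 := by
      have e1 := mul_lt_mul_of_pos_right h3 (show 0 < 3 * ((m : ℝ) + 1) by positivity)
      have e2 : (1 + 1 / (3 * ((m : ℝ) + 1)) + (dd G u - 1) * (4 / (3 * ((m : ℝ) + 1)))) *
          (3 * ((m : ℝ) + 1)) = 3 * ((m : ℝ) + 1) + 1 + (dd G u - 1) * 4 := by
        field_simp
      rwa [e2] at e1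
    nlinarith

include hm hmin hk H1 H2 in
/-- no vertex of minimal degree has a neighbour of another degree -/
theorem main (x h : V) (hx : (nbrs G x).card = m) (hh : G.Adj x h) : (nbrs G h).card = m := by
  by_contra hh'
  have hM : (4 : ℝ) ≤ m := by exact_mod_cast hm
  have hdx : dd G x = m := by unfold dd; rw [hx]
  have hM4 : (m : ℝ) ^ 4 / (m : ℝ) ^ 2 = (m : ℝ) ^ 2 := by field_simp
  -- at most one bad neighbour
  obtain ⟨u0, hu0, hall⟩ : ∃ u0, G.Adj x u0 ∧ ∀ u, G.Adj x u → u ≠ u0 → (m : ℝ) ≤ ee G m g2 u := by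
    by_cases hb : ∃ u, G.Adj x u ∧ ee G m g2 u < m
    · obtain ⟨u0, hu0, hb0⟩ := hb
      refine ⟨u0, hu0, fun u hu hne => ?_⟩
      by_contra hlt
      push Not at hlt
      have h1 := H2 u u0 x hne hu.symm hu0.symm
      rw [hdx, hM4] at h1
      have h2 : ee G m g2 u * ee G m g2 u0 < m * m :=
        mul_lt_mul'' hlt hb0 (H1 u) (H1 u0)
      nlinarith
    · push Not at hb
      exact ⟨h, hh, fun u hu _ => hb u hu⟩
  -- the good neighbours have another degree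
  have hnA : ∀ u, G.Adj x u → u ≠ u0 → (nbrs G u).card ≠ m := by
    intro u hu hne huA
    have h1 := ee_T G m g2 hm hmin hk u x huA hu.symm (fun w hw hwx =>
      step1 G m g2 hm hmin hk H1 H2 x h u w hx hh hh' hu huA hw hwx)
    have h2 := hall u hu hne
    have h3 : 7 * (m : ℝ) / (3 * ((m : ℝ) + 1)) < m := by
      rw [div_lt_iff₀ (by positivity)]
      nlinarith
    linarith
  have hW : ∀ u, G.Adj x u → u ≠ u0 → cc G m g2 u ≤
      7 * (m : ℝ) / (3 * ((m : ℝ) + 1)) - m + ((m : ℝ) - (m : ℝ) ^ 2 * g2) := by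
    intro u hu hne
    have h1 := step4 G m g2 hm hmin hk H1 H2 x u hx hu (hnA u hu hne) (hall u hu hne)
    have hdu : (m : ℝ) ≤ dd G u := by
      unfold dd
      exact_mod_cast hmin u
    unfold cc
    have h2 : (m : ℝ) ^ 2 / dd G u ≤ 7 * (m : ℝ) / (3 * ((m : ℝ) + 1)) := by
      rw [div_le_div_iff₀ (by linarith) (by positivity)]
      nlinarith
    linarith
  have h1 := sum_split (nbrs G x) u0 ((mem_nbrs G x u0).2 hu0) (cc G m g2) _ _
    (cc_le G m g2 hm hmin u0) (fun u hu hne => hW u ((mem_nbrs G x u).1 hu) hne)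
  have h2 := H1 x
  unfold ee at h2
  rw [hx] at h1
  set κ := (m : ℝ) - (m : ℝ) ^ 2 * g2 with hκ
  have h3 : κ + ((m : ℝ) - 1) * (7 * (m : ℝ) / (3 * ((m : ℝ) + 1)) - m + κ) =
      m * κ + (m - 1) * m * (7 / (3 * ((m : ℝ) + 1)) - 1) := by
    field_simp
    ring
  have h4 : (m : ℝ) * κ < m * (1 + 1 / (3 * ((m : ℝ) + 1))) :=
    mul_lt_mul_of_pos_left hk (by linarith)
  have h5 : (m : ℝ) * (1 + 1 / (3 * ((m : ℝ) + 1))) + (m - 1) * m * (7 / (3 * ((m : ℝ) + 1)) - 1) =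
      (m : ℝ) ^ 2 * (10 - 3 * m) / (3 * ((m : ℝ) + 1)) := by
    field_simp
    ring
  have h6 : (m : ℝ) ^ 2 * (10 - 3 * m) / (3 * ((m : ℝ) + 1)) < 0 := by
    apply div_neg_of_neg_of_pos _ (by positivity)
    apply mul_neg_of_pos_of_neg (by positivity)
    linarith
  linarith

end

end ML

end Pool.Agent.K6.H56.GP
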