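import Pool.Agent.H444R3.GapSpec

/-! Gap of the normalized Laplacian and projective planes: definitions and statements of the pieces. -/

set_option autoImplicit false

open Finset

namespace Pool.Agent.K6.H56.GP

open Pool.Agent.H444R3.GapDefs

/-- a finite projective plane of order `n`, with incidence relation `R` -/
structure IsPlane {P L : Type} [Fintype P] [Fintype L] (R : P → L → Prop) (n : ℕ) : Prop where
  line : ∀ p q : P, p ≠ q → ∃! l, R p l ∧ R q l
  point : ∀ l m : L, l ≠ m → ∃! p, R p l ∧ R p m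
  quad : ∃ a : Fin 4 → P, Function.Injective a ∧ ∀ i j k : Fin 4, i ≠ j → j ≠ k → i ≠ k →
    ¬ ∃ l, R (a i) l ∧ R (a j) l ∧ R (a k) l
  order : ∃ l, Nat.card {p // R p l} = n + 1

/-- VAR: variational bound (adapt the proof of `gap_le_of_test` in H444R3/GapSpec.lean, with the
symmetric matrix `M v w = [v ~ w] / (√d_v √d_w)`: an eigenvector `g` of `M * M` with eigenvalue `t` gives
an eigenvector of `M` for `√t` or `-√t`, and `g v / √d_v` is an eigenvector of `lap`) -/
def S_VAR : Prop := ∀ (V : Type) [Fintype V] (G : SimpleGraph V),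
  (∀ v, 0 < (nbrs G v).card) → ∀ f : V → ℝ,
  gap G ^ 2 * ∑ v, ((nbrs G v).card : ℝ) * f v ^ 2 ≤
    ∑ v, (∑ w ∈ nbrs G v, f w) ^ 2 / ((nbrs G v).card : ℝ)

/-- PLN: take `P` = the class of some `v₀` for the relation `u = v` or `common u v` nonempty, `L` = the
class of a neighbour `w₀` of `v₀`, `R` = adjacency -/
def S_PLN : Prop := ∀ (V : Type) [Fintype V] [Nonempty V] (G : SimpleGraph V) (n : ℕ), 2 ≤ n →
  (∀ v, (nbrs G v).card = n + 1) → (∀ u v, u ≠ v → (common G u v).card ≤ 1) →
  (∀ u v w, u ≠ v → v ≠ w → u ≠ w → (common G u v).Nonempty → (common G v w).Nonempty →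
    (common G u w).Nonempty) →
  ∃ (P L : Type) (_ : Fintype P) (_ : Fintype L) (R : P → L → Prop), IsPlane R n

end Pool.Agent.K6.H56.GP
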